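import Mathlib

set_option autoImplicit false

open MeasureTheory Filter Topology
open scoped ContDiff ComplexConjugate

namespace Pool.Agent.Results.MP_629fd3_an.BalancedTorus

/-! ### Definitions used in the statement

`X` is the compact complex torus `ℂⁿ / (ℤ + iℤ)ⁿ`.  Functions and forms on `X` are functions and
forms on `ℂⁿ` which are invariant under the lattice `(ℤ + iℤ)ⁿ`. -/

/-- `F` is invariant under all translations by the lattice `(ℤ + iℤ)ⁿ`, i.e. `F` is a function on
the torus `X = ℂⁿ / (ℤ + iℤ)ⁿ`. -/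
def LatticePeriodic {n : ℕ} {β : Type*} (F : (Fin n → ℂ) → β) : Prop :=
  ∀ (k l : Fin n → ℤ) (z : Fin n → ℂ),
    F (fun j => z j + ((k j : ℂ) + (l j : ℂ) * Complex.I)) = F z

/-- The centred unit cube, a fundamental domain of the lattice (up to a null set). -/
def cell (n : ℕ) : Set (Fin n → ℂ) :=
  {z | ∀ j, |(z j).re| ≤ 1 / 2 ∧ |(z j).im| ≤ 1 / 2}

/-- The value `∑ h_{jk} ξ_j conj(ξ_k)` of the Hermitian form with matrix `(h_{jk})`. -/
noncomputable def hermForm {n : ℕ} (h : Matrix (Fin n) (Fin n) ℂ) (ξ : Fin n → ℂ) : ℝ :=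
  (∑ j, ∑ k, h j k * ξ j * conj (ξ k)).re

/-- `ω = (i/π) ∑ h_{jk} dz_j ∧ dz̄_k` is the `(1,1)`-form of a smooth Hermitian metric on `X`. -/
structure IsHermitianMetric {n : ℕ} (h : (Fin n → ℂ) → Matrix (Fin n) (Fin n) ℂ) : Prop where
  periodic : LatticePeriodic h
  smooth : ∀ j k, ContDiff ℝ ∞ (fun z => h z j k)
  hermitian : ∀ z, (h z).IsHermitian
  pos : ∀ z ξ, ξ ≠ 0 → 0 < hermForm (h z) ξ

/-- `∫_X ω^n = n! (2/π)^n ∫ det h dLebesgue` for `ω = (i/π) ∑ h_{jk} dz_j ∧ dz̄_k`. -/
noncomputable def totalVolume {n : ℕ} (h : (Fin n → ℂ) → Matrix (Fin n) (Fin n) ℂ) : ℝ :=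
  (n.factorial : ℝ) * (2 / Real.pi) ^ n * ∫ z in cell n, ((h z).det).re

/-- The holomorphic derivative `∂f/∂z_j = (1/2)(∂f/∂x_j - i ∂f/∂y_j)` at `z`. -/
noncomputable def wirtinger {n : ℕ} (j : Fin n) (f : (Fin n → ℂ) → ℂ) (z : Fin n → ℂ) : ℂ :=
  (1 / 2) * (deriv (fun t : ℝ => f (z + Pi.single j (t : ℂ))) 0 -
    Complex.I * deriv (fun t : ℝ => f (z + Pi.single j ((t : ℂ) * Complex.I))) 0)

/-- `d(ω^{n-1}) = 0`, i.e. the metric is balanced.  In terms of the coefficients this is
`∑_j ∂(adj h)_{kj}/∂z_j = 0` for all `k`, where `adj h` is the adjugate matrix. -/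
def IsBalanced {n : ℕ} (h : (Fin n → ℂ) → Matrix (Fin n) (Fin n) ℂ) : Prop :=
  ∀ (k : Fin n) (z : Fin n → ℂ), ∑ j, wirtinger j (fun w => (h w).adjugate k j) z = 0

/-- The Levi form `∑ χ_{j k̄}(z) ξ_j conj(ξ_k)`, that is `1/4` of the Laplacian at `ζ = 0` of the
function `ζ ↦ χ (z + ζ ξ)` of one complex variable. -/
noncomputable def leviForm {n : ℕ} (χ : (Fin n → ℂ) → ℝ) (z ξ : Fin n → ℂ) : ℝ :=
  (1 / 4) * (iteratedDeriv 2 (fun t : ℝ => χ (fun j => z j + (t : ℂ) * ξ j)) 0 +
    iteratedDeriv 2 (fun t : ℝ => χ (fun j => z j + (t : ℂ) * (Complex.I * ξ j))) 0)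

/-- `φ : X → [-∞, ∞)` is `ω`-plurisubharmonic, `ω = (i/π) ∑ h_{jk} dz_j ∧ dz̄_k`: it is upper
semicontinuous, integrable, and `ω + dd^c φ ≥ 0` in the sense of currents with
`dd^c = (i/π) ∂∂̄`, i.e. for every constant vector `ξ` the distribution
`∑ (h_{jk} + φ_{j k̄}) ξ_j conj(ξ_k)` on `X` is nonnegative (it is tested against all smooth
functions `χ ≥ 0` on `X`, the derivatives of `φ` being moved to `χ`). -/
structure IsOmegaPsh {n : ℕ} (h : (Fin n → ℂ) → Matrix (Fin n) (Fin n) ℂ)
    (φ : (Fin n → ℂ) → EReal) : Prop where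
  periodic : LatticePeriodic φ
  lt_top : ∀ z, φ z < ⊤
  usc : UpperSemicontinuous φ
  ae_finite : ∀ᵐ z : Fin n → ℂ, φ z ≠ ⊥
  integrable : IntegrableOn (fun z => (φ z).toReal) (cell n)
  positive : ∀ (ξ : Fin n → ℂ) (χ : (Fin n → ℂ) → ℝ),
    ContDiff ℝ ∞ χ → LatticePeriodic χ → (∀ z, 0 ≤ χ z) →
      0 ≤ ∫ z in cell n, (hermForm (h z) ξ * χ z + (φ z).toReal * leviForm χ z ξ)

/-- Euclidean norm on `ℂⁿ`. -/
noncomputable def euclNorm {n : ℕ} (z : Fin n → ℂ) : ℝ := Real.sqrt (∑ j, ‖z j‖ ^ 2)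

/-- `φ(z) ≤ τ log ‖z‖ + O(1)` near the point `0`. -/
def HasLogPole {n : ℕ} (φ : (Fin n → ℂ) → EReal) (τ : ℝ) : Prop :=
  ∃ C δ : ℝ, 0 < δ ∧ ∀ z : Fin n → ℂ, z ≠ 0 → euclNorm z < δ →
    φ z ≤ ((τ * Real.log (euclNorm z) + C : ℝ) : EReal)

/-! one variable -/

/-- centred unit square in the plane. -/
def sq : Set ℂ := {z | |z.re| ≤ 1 / 2 ∧ |z.im| ≤ 1 / 2}

noncomputable def sA (z : ℂ) : ℝ := Real.sin (Real.pi * z.re) ^ 2
noncomputable def sB (z : ℂ) : ℝ := Real.sin (Real.pi * z.im) ^ 2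
noncomputable def sS (z : ℂ) : ℝ := sA z + sB z

noncomputable def gG (e : ℝ) (z : ℂ) : ℝ := Real.log (sS z + e) - Real.log e
noncomputable def gP (e : ℝ) (z : ℂ) : ℝ := Real.pi ^ 2 * e / (sS z + e) ^ 2
noncomputable def gq (e : ℝ) (z : ℂ) : ℝ :=
  Real.pi ^ 2 * (e * sS z + 2 * sA z * sB z) / (sS z + e) ^ 2

lemma sA_nonneg (z : ℂ) : 0 ≤ sA z := sq_nonneg _
lemma sB_nonneg (z : ℂ) : 0 ≤ sB z := sq_nonneg _
lemma sS_nonneg (z : ℂ) : 0 ≤ sS z := add_nonneg (sA_nonneg z) (sB_nonneg z)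
lemma sA_le (z : ℂ) : sA z ≤ 1 := Real.sin_sq_le_one _
lemma sB_le (z : ℂ) : sB z ≤ 1 := Real.sin_sq_le_one _
lemma sS_le (z : ℂ) : sS z ≤ 2 := by
  have := sA_le z; have := sB_le z; unfold sS; linarith

lemma contDiff_re : ContDiff ℝ ∞ (fun z : ℂ => z.re) := Complex.reCLM.contDiff
lemma contDiff_im : ContDiff ℝ ∞ (fun z : ℂ => z.im) := Complex.imCLM.contDiff

lemma contDiff_sA : ContDiff ℝ ∞ sA := by
  unfold sA
  exact (Real.contDiff_sin.comp (contDiff_const.mul contDiff_re)).pow 2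
lemma contDiff_sB : ContDiff ℝ ∞ sB := by
  unfold sB
  exact (Real.contDiff_sin.comp (contDiff_const.mul contDiff_im)).pow 2
lemma contDiff_sS : ContDiff ℝ ∞ sS := contDiff_sA.add contDiff_sB

lemma denom_pos {e : ℝ} (he : 0 < e) (z : ℂ) : 0 < sS z + e := by
  have := sS_nonneg z; linarith

lemma contDiff_gG {e : ℝ} (he : 0 < e) : ContDiff ℝ ∞ (gG e) := by
  unfold gG
  refine ContDiff.sub ?_ contDiff_const
  exact (contDiff_sS.add contDiff_const).log (fun z => (denom_pos he z).ne')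

lemma contDiff_gP {e : ℝ} (he : 0 < e) : ContDiff ℝ ∞ (gP e) := by
  unfold gP
  refine ContDiff.div contDiff_const ((contDiff_sS.add contDiff_const).pow 2)
    (fun z => (pow_pos (denom_pos he z) 2).ne')

lemma contDiff_gq {e : ℝ} (he : 0 < e) : ContDiff ℝ ∞ (gq e) := by
  unfold gq
  refine ContDiff.div ?_ ((contDiff_sS.add contDiff_const).pow 2)
    (fun z => (pow_pos (denom_pos he z) 2).ne')
  exact contDiff_const.mul ((contDiff_const.mul contDiff_sS).add
    ((contDiff_const.mul contDiff_sA).mul contDiff_sB))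

lemma gG_nonneg {e : ℝ} (he : 0 < e) (z : ℂ) : 0 ≤ gG e z := by
  unfold gG
  have h1 := sS_nonneg z
  have : Real.log e ≤ Real.log (sS z + e) := Real.log_le_log he (by linarith)
  linarith

lemma gG_le {e : ℝ} (he : 0 < e) (he1 : e ≤ 1) (z : ℂ) : gG e z ≤ Real.log 3 - Real.log e := by
  unfold gG
  have h1 := sS_le z
  have : Real.log (sS z + e) ≤ Real.log 3 := Real.log_le_log (denom_pos he z) (by linarith)
  linarith

lemma gP_nonneg {e : ℝ} (he : 0 < e) (z : ℂ) : 0 ≤ gP e z := by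
  unfold gP; positivity

lemma gq_nonneg {e : ℝ} (he : 0 < e) (z : ℂ) : 0 ≤ gq e z := by
  unfold gq
  have := sA_nonneg z; have := sB_nonneg z; have := sS_nonneg z
  positivity

lemma pi_sq_lt : Real.pi ^ 2 < 10 := by
  have := Real.pi_lt_d2; have := Real.pi_pos; nlinarith

lemma gq_le {e : ℝ} (he : 0 < e) (z : ℂ) : gq e z ≤ 8 := by
  unfold gq
  have hA := sA_nonneg z; have hB := sB_nonneg z; have hS := sS_nonneg z
  have hd := denom_pos he z
  rw [div_le_iff₀ (pow_pos hd 2)]
  have hpi := pi_sq_lt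
  have hpi0 : 0 < Real.pi ^ 2 := by positivity
  have h1 : e * sS z + 2 * sA z * sB z ≤ (3 / 4) * (sS z + e) ^ 2 := by
    unfold sS at *
    nlinarith [sq_nonneg (sA z + sB z - e), sq_nonneg (sA z - sB z)]
  have h2 : Real.pi ^ 2 * (e * sS z + 2 * sA z * sB z) ≤ Real.pi ^ 2 * ((3 / 4) * (sS z + e) ^ 2) :=
    mul_le_mul_of_nonneg_left h1 hpi0.le
  have h3 : 0 ≤ (sS z + e) ^ 2 := by positivity
  nlinarith



lemma hasDerivAt_aux1 (x c k : ℝ) (hc : 0 < c) (t : ℝ) :
    HasDerivAt (fun t : ℝ => Real.log (Real.sin (Real.pi * (x + t)) ^ 2 + c) - k)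
      (2 * Real.pi * Real.sin (Real.pi * (x + t)) * Real.cos (Real.pi * (x + t)) /
        (Real.sin (Real.pi * (x + t)) ^ 2 + c)) t := by
  have h0 : HasDerivAt (fun t : ℝ => Real.pi * (x + t)) Real.pi t := by
    simpa using ((hasDerivAt_id t).const_add x).const_mul Real.pi
  have h1 := (h0.sin.pow 2).add_const c
  have hpos : Real.sin (Real.pi * (x + t)) ^ 2 + c ≠ 0 := by positivity
  have h2 := (h1.log hpos).sub_const k
  refine HasDerivAt.congr_deriv h2 ?_
  simp
  ring

lemma hasDerivAt_aux2 (x c : ℝ) (hc : 0 < c) (t : ℝ) :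
    HasDerivAt (fun t : ℝ => 2 * Real.pi * Real.sin (Real.pi * (x + t)) *
        Real.cos (Real.pi * (x + t)) / (Real.sin (Real.pi * (x + t)) ^ 2 + c))
      ((2 * Real.pi ^ 2 * (1 - 2 * Real.sin (Real.pi * (x + t)) ^ 2) *
          (Real.sin (Real.pi * (x + t)) ^ 2 + c) -
        4 * Real.pi ^ 2 * Real.sin (Real.pi * (x + t)) ^ 2 *
          (1 - Real.sin (Real.pi * (x + t)) ^ 2)) /
        (Real.sin (Real.pi * (x + t)) ^ 2 + c) ^ 2) t := by
  have h0 : HasDerivAt (fun t : ℝ => Real.pi * (x + t)) Real.pi t := by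
    simpa using ((hasDerivAt_id t).const_add x).const_mul Real.pi
  have h1 := (h0.sin.pow 2).add_const c
  have hpos : Real.sin (Real.pi * (x + t)) ^ 2 + c ≠ 0 := by positivity
  have h3 := (h0.sin.const_mul (2 * Real.pi)).mul h0.cos
  have h2 := h3.div h1 hpos
  refine HasDerivAt.congr_deriv h2 ?_
  have hc2 : Real.cos (Real.pi * (x + t)) ^ 2 = 1 - Real.sin (Real.pi * (x + t)) ^ 2 := by
    rw [Real.cos_sq']
  simp only [Nat.cast_ofNat, Nat.add_one_sub_one, pow_one, Pi.mul_apply, Pi.pow_apply]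
  congr 1
  linear_combination ((2 * Real.pi ^ 2 * (Real.sin (Real.pi * (x + t)) ^ 2 + c)) - 4 * Real.pi ^ 2 * Real.sin (Real.pi * (x + t)) ^ 2) * hc2

lemma iteratedDeriv_aux (x c k : ℝ) (hc : 0 < c) :
    iteratedDeriv 2 (fun t : ℝ => Real.log (Real.sin (Real.pi * (x + t)) ^ 2 + c) - k) 0 =
      (2 * Real.pi ^ 2 * (1 - 2 * Real.sin (Real.pi * x) ^ 2) *
          (Real.sin (Real.pi * x) ^ 2 + c) -
        4 * Real.pi ^ 2 * Real.sin (Real.pi * x) ^ 2 *
          (1 - Real.sin (Real.pi * x) ^ 2)) /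
        (Real.sin (Real.pi * x) ^ 2 + c) ^ 2 := by
  rw [iteratedDeriv_succ, iteratedDeriv_one]
  have h1 : deriv (fun t : ℝ => Real.log (Real.sin (Real.pi * (x + t)) ^ 2 + c) - k) =
      fun t : ℝ => 2 * Real.pi * Real.sin (Real.pi * (x + t)) *
        Real.cos (Real.pi * (x + t)) / (Real.sin (Real.pi * (x + t)) ^ 2 + c) := by
    funext t
    exact (hasDerivAt_aux1 x c k hc t).deriv
  rw [h1, (hasDerivAt_aux2 x c hc 0).deriv]
  simp only [add_zero]

lemma laplace_gG {e : ℝ} (he : 0 < e) (z : ℂ) :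
    iteratedDeriv 2 (fun t : ℝ => gG e (z + (t : ℂ) * 1)) 0 +
      iteratedDeriv 2 (fun t : ℝ => gG e (z + (t : ℂ) * (Complex.I * 1))) 0
      = 4 * (gP e z - gq e z) := by
  have hB := sB_nonneg z
  have hA := sA_nonneg z
  have e1 : (fun t : ℝ => gG e (z + (t : ℂ) * 1)) =
      fun t : ℝ => Real.log (Real.sin (Real.pi * (z.re + t)) ^ 2 + (sB z + e)) - Real.log e := by
    funext t
    simp [gG, sS, sA, sB, add_assoc]
  have e2 : (fun t : ℝ => gG e (z + (t : ℂ) * (Complex.I * 1))) =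
      fun t : ℝ => Real.log (Real.sin (Real.pi * (z.im + t)) ^ 2 + (sA z + e)) - Real.log e := by
    funext t
    simp [gG, sS, sA, sB, add_assoc, add_left_comm]
  rw [e1, e2, iteratedDeriv_aux _ _ _ (by linarith), iteratedDeriv_aux _ _ _ (by linarith)]
  have hA' : Real.sin (Real.pi * z.re) ^ 2 = sA z := rfl
  have hB' : Real.sin (Real.pi * z.im) ^ 2 = sB z := rfl
  rw [hA', hB']
  unfold gP gq sS
  have hd : sA z + sB z + e ≠ 0 := by positivity
  have hd1 : sA z + (sB z + e) ≠ 0 := by positivity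
  have hd2 : sB z + (sA z + e) ≠ 0 := by positivity
  field_simp
  ring



lemma sq_eq_preimage (r : ℝ) : {z : ℂ | |z.re| ≤ r ∧ |z.im| ≤ r} =
    Complex.measurableEquivRealProd ⁻¹' (Set.Icc (-r) r ×ˢ Set.Icc (-r) r) := by
  ext z
  simp only [Complex.measurableEquivRealProd_apply, Set.mem_ofPred_eq, Set.mem_preimage,
    Set.mem_prod, Set.mem_Icc, abs_le]

lemma volume_square (r : ℝ) : volume {z : ℂ | |z.re| ≤ r ∧ |z.im| ≤ r} =
    ENNReal.ofReal (2 * r) * ENNReal.ofReal (2 * r) := by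
  rw [sq_eq_preimage, Complex.volume_preserving_equiv_real_prod.measure_preimage
    ((measurableSet_Icc.prod measurableSet_Icc).nullMeasurableSet), Measure.volume_eq_prod,
    Measure.prod_prod, Real.volume_Icc]
  congr 2 <;> ring

lemma volume_sq : volume sq = 1 := by
  unfold sq
  rw [volume_square]
  norm_num

lemma isCompact_square (r : ℝ) : IsCompact {z : ℂ | |z.re| ≤ r ∧ |z.im| ≤ r} := by
  have h1 : {z : ℂ | |z.re| ≤ r ∧ |z.im| ≤ r} =
      Complex.equivRealProdCLM ⁻¹' (Set.Icc (-r) r ×ˢ Set.Icc (-r) r) := by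
    ext z
    simp only [Complex.equivRealProdCLM_apply, Set.mem_ofPred_eq, Set.mem_preimage,
      Set.mem_prod, Set.mem_Icc, abs_le]
  rw [h1]
  exact (Complex.equivRealProdCLM.toHomeomorph.isCompact_preimage).2
    (isCompact_Icc.prod isCompact_Icc)

lemma isCompact_sq : IsCompact sq := isCompact_square _

lemma measurableSet_sq : MeasurableSet sq := isCompact_sq.measurableSet

instance : IsFiniteMeasure (volume.restrict sq) := ⟨by
  rw [Measure.restrict_apply_univ, volume_sq]; exact ENNReal.one_lt_top⟩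

lemma integral_sq_eq (F : ℝ × ℝ → ℝ) (hF : Continuous F) :
    ∫ z in sq, F (z.re, z.im) = ∫ x in (-(1 / 2 : ℝ))..(1 / 2), ∫ y in (-(1 / 2 : ℝ))..(1 / 2), F (x, y) := by
  have h1 : ∫ z in sq, F (z.re, z.im) =
      ∫ p in (Set.Icc (-(1 / 2 : ℝ)) (1 / 2) ×ˢ Set.Icc (-(1 / 2 : ℝ)) (1 / 2)), F p := by
    rw [← Complex.volume_preserving_equiv_real_prod.setIntegral_preimage_emb
      Complex.measurableEquivRealProd.measurableEmbedding F]
    have : sq = Complex.measurableEquivRealProd ⁻¹'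
        (Set.Icc (-(1 / 2 : ℝ)) (1 / 2) ×ˢ Set.Icc (-(1 / 2 : ℝ)) (1 / 2)) := sq_eq_preimage _
    rw [← this]
    rfl
  rw [h1, Measure.volume_eq_prod, setIntegral_prod]
  · rw [intervalIntegral.integral_of_le (by norm_num), integral_Icc_eq_integral_Ioc]
    refine integral_congr_ae (Eventually.of_forall fun x => ?_)
    simp only
    rw [intervalIntegral.integral_of_le (by norm_num), integral_Icc_eq_integral_Ioc]
  · exact (hF.continuousOn).integrableOn_compact (isCompact_Icc.prod isCompact_Icc)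

lemma integral_sq_eq' (F : ℝ × ℝ → ℝ) (hF : Continuous F) :
    ∫ z in sq, F (z.re, z.im) = ∫ y in (-(1 / 2 : ℝ))..(1 / 2), ∫ x in (-(1 / 2 : ℝ))..(1 / 2), F (x, y) := by
  rw [integral_sq_eq F hF]
  refine intervalIntegral_intervalIntegral_swap (F := fun x y => F (x, y)) ?_
  refine (hF.continuousOn.integrableOn_compact (isCompact_Icc.prod isCompact_Icc)
    (K := Set.Icc (-(1 / 2 : ℝ)) (1 / 2) ×ˢ Set.Icc (-(1 / 2 : ℝ)) (1 / 2))).mono_set ?_
  rw [Set.uIoc_of_le (by norm_num)]
  exact Set.prod_mono Set.Ioc_subset_Icc_self Set.Ioc_subset_Icc_self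

/-- x-derivative of the x-derivative of `log (sin² πx + sin² πy + e)`. -/
noncomputable def kK (e : ℝ) (p : ℝ × ℝ) : ℝ :=
  (2 * Real.pi ^ 2 * (1 - 2 * Real.sin (Real.pi * p.1) ^ 2) *
      (Real.sin (Real.pi * p.1) ^ 2 + (Real.sin (Real.pi * p.2) ^ 2 + e)) -
    4 * Real.pi ^ 2 * Real.sin (Real.pi * p.1) ^ 2 * (1 - Real.sin (Real.pi * p.1) ^ 2)) /
    (Real.sin (Real.pi * p.1) ^ 2 + (Real.sin (Real.pi * p.2) ^ 2 + e)) ^ 2

lemma continuous_kK {e : ℝ} (he : 0 < e) : Continuous (kK e) := by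
  unfold kK
  refine Continuous.div (by fun_prop) (by fun_prop) (fun p => ?_)
  positivity

lemma integral_kK {e : ℝ} (he : 0 < e) (y : ℝ) :
    ∫ x in (-(1 / 2 : ℝ))..(1 / 2), kK e (x, y) = 0 := by
  have hc : 0 < Real.sin (Real.pi * y) ^ 2 + e := by positivity
  have h1 : ∀ x ∈ Set.uIcc (-(1 / 2 : ℝ)) (1 / 2), HasDerivAt
      (fun t : ℝ => 2 * Real.pi * Real.sin (Real.pi * (0 + t)) *
        Real.cos (Real.pi * (0 + t)) / (Real.sin (Real.pi * (0 + t)) ^ 2 +
          (Real.sin (Real.pi * y) ^ 2 + e))) (kK e (x, y)) x := by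
    intro x _
    have h := hasDerivAt_aux2 0 (Real.sin (Real.pi * y) ^ 2 + e) hc x
    refine h.congr_deriv ?_
    simp only [kK, zero_add]
  have h2 : IntervalIntegrable (fun x => kK e (x, y)) volume (-(1 / 2 : ℝ)) (1 / 2) :=
    ((continuous_kK he).comp (by fun_prop : Continuous fun x : ℝ => (x, y))).intervalIntegrable _ _
  rw [intervalIntegral.integral_eq_sub_of_hasDerivAt h1 h2]
  have h3 : Real.cos (Real.pi * (0 + 1 / 2)) = 0 := by
    rw [show Real.pi * (0 + 1 / 2) = Real.pi / 2 by ring]; exact Real.cos_pi_div_two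
  have h4 : Real.cos (Real.pi * (0 + -(1 / 2))) = 0 := by
    rw [show Real.pi * (0 + -(1 / 2)) = -(Real.pi / 2) by ring, Real.cos_neg]
    exact Real.cos_pi_div_two
  rw [h3, h4]
  simp

lemma gP_sub_gq {e : ℝ} (he : 0 < e) (z : ℂ) :
    gP e z - gq e z = (1 / 4) * (kK e (z.re, z.im) + kK e (z.im, z.re)) := by
  have hA := sA_nonneg z
  have hB := sB_nonneg z
  unfold kK gP gq sS
  simp only
  have hA' : Real.sin (Real.pi * z.re) ^ 2 = sA z := rfl
  have hB' : Real.sin (Real.pi * z.im) ^ 2 = sB z := rfl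
  rw [hA', hB']
  have hd : sA z + sB z + e ≠ 0 := by positivity
  have hd1 : sA z + (sB z + e) ≠ 0 := by positivity
  have hd2 : sB z + (sA z + e) ≠ 0 := by positivity
  field_simp
  ring

lemma integrableOn_sq {F : ℂ → ℝ} (hF : Continuous F) : IntegrableOn F sq :=
  hF.continuousOn.integrableOn_compact isCompact_sq

lemma integral_gP_eq {e : ℝ} (he : 0 < e) : ∫ z in sq, gP e z = ∫ z in sq, gq e z := by
  have h1 : ∫ z in sq, (gP e z - gq e z) = 0 := by
    have hc1 : Continuous fun p : ℝ × ℝ => kK e (p.2, p.1) :=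
      (continuous_kK he).comp (by fun_prop)
    have hc0 : Continuous fun p : ℝ × ℝ => kK e (p.1, p.2) :=
      (continuous_kK he).comp (by fun_prop)
    simp_rw [gP_sub_gq he]
    rw [integral_const_mul, integral_add]
    · have e1 := integral_sq_eq' (fun p => kK e (p.1, p.2)) hc0
      have e2 := integral_sq_eq (fun p => kK e (p.2, p.1)) hc1
      simp only at e1 e2
      rw [e1, e2]
      simp_rw [integral_kK he]
      simp
    · exact integrableOn_sq ((continuous_kK he).comp (Complex.continuous_re.prodMk Complex.continuous_im))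
    · exact integrableOn_sq ((continuous_kK he).comp (Complex.continuous_im.prodMk Complex.continuous_re))
  rw [integral_sub (integrableOn_sq (contDiff_gP he).continuous)
    (integrableOn_sq (contDiff_gq he).continuous)] at h1
  linarith

lemma integral_sq_le {F : ℂ → ℝ} (hF : Continuous F) {c : ℝ} (h : ∀ z, F z ≤ c) :
    ∫ z in sq, F z ≤ c := by
  have h1 : ∫ z in sq, F z ≤ ∫ _z in sq, c :=
    setIntegral_mono (integrableOn_sq hF) (integrableOn_sq continuous_const) h
  rw [setIntegral_const, Measure.real, volume_sq] at h1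
  simpa using h1

lemma integral_gP_le {e : ℝ} (he : 0 < e) : ∫ z in sq, gP e z ≤ 8 := by
  rw [integral_gP_eq he]
  exact integral_sq_le (contDiff_gq he).continuous (gq_le he)

lemma integral_gq_le {e : ℝ} (he : 0 < e) : ∫ z in sq, gq e z ≤ 8 :=
  integral_sq_le (contDiff_gq he).continuous (gq_le he)

lemma integral_gG_le {e : ℝ} (he : 0 < e) (he1 : e ≤ 1) :
    ∫ z in sq, gG e z ≤ Real.log 3 - Real.log e :=
  integral_sq_le (contDiff_gG he).continuous (gG_le he he1)

lemma sS_gP_le {e : ℝ} (he : 0 < e) (z : ℂ) : sS z * gP e z ≤ 3 := by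
  unfold gP
  have hS := sS_nonneg z
  have hd := denom_pos he z
  rw [← mul_div_assoc, div_le_iff₀ (pow_pos hd 2)]
  have hpi := pi_sq_lt
  have hpi0 : 0 < Real.pi ^ 2 := by positivity
  have h1 : sS z * e ≤ (1 / 4) * (sS z + e) ^ 2 := by nlinarith [sq_nonneg (sS z - e)]
  have h2 : Real.pi ^ 2 * (sS z * e) ≤ Real.pi ^ 2 * ((1 / 4) * (sS z + e) ^ 2) :=
    mul_le_mul_of_nonneg_left h1 hpi0.le
  have h3 : 0 ≤ (sS z + e) ^ 2 := by positivity
  nlinarith

lemma tendsto_integral_sS_gP :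
    Tendsto (fun e : ℝ => ∫ z in sq, sS z * gP e z) (𝓝[>] 0) (𝓝 0) := by
  suffices h0 : Tendsto (fun e : ℝ => ∫ z in sq, sS z * gP e z) (𝓝[>] 0)
      (𝓝 (∫ _z in sq, (0 : ℝ))) by simpa using h0
  refine tendsto_integral_filter_of_dominated_convergence (fun _ => (3 : ℝ)) ?_ ?_ ?_ ?_
  · filter_upwards [self_mem_nhdsWithin] with e he
    exact (contDiff_sS.continuous.mul (contDiff_gP he).continuous).aestronglyMeasurable
  · filter_upwards [self_mem_nhdsWithin] with e he
    refine Eventually.of_forall fun z => ?_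
    rw [Real.norm_of_nonneg (mul_nonneg (sS_nonneg z) (gP_nonneg he z))]
    exact sS_gP_le he z
  · exact integrable_const _
  · refine Eventually.of_forall fun z => ?_
    rcases (sS_nonneg z).eq_or_lt with h | h
    · simp [← h]
    · have hc : ContinuousAt (fun e : ℝ => sS z * gP e z) 0 := by
        unfold gP
        refine ContinuousAt.mul continuousAt_const (ContinuousAt.div (by fun_prop) (by fun_prop) ?_)
        simp [h.ne']
      have h1 : Tendsto (fun e : ℝ => sS z * gP e z) (𝓝 0) (𝓝 (sS z * gP 0 z)) := hc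
      have h2 : sS z * gP 0 z = 0 := by simp [gP]
      rw [h2] at h1
      exact h1.mono_left nhdsWithin_le_nhds

/-- small square on which `gP e` is at least `π²/(4e)`. -/
def smallSq (e : ℝ) : Set ℂ := {z | |z.re| ≤ Real.sqrt e / 5 ∧ |z.im| ≤ Real.sqrt e / 5}

lemma measurableSet_smallSq (e : ℝ) : MeasurableSet (smallSq e) :=
  (isCompact_square _).measurableSet

lemma smallSq_subset {e : ℝ} (he1 : e ≤ 1) : smallSq e ⊆ sq := by
  intro z hz
  have h1 : Real.sqrt e ≤ 1 := Real.sqrt_le_one.2 he1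
  exact ⟨hz.1.trans (by linarith), hz.2.trans (by linarith)⟩

lemma sS_le_of_mem {e : ℝ} (he : 0 < e) {z : ℂ} (hz : z ∈ smallSq e) : sS z ≤ e := by
  have h1 : ∀ x : ℝ, |x| ≤ Real.sqrt e / 5 → Real.sin (Real.pi * x) ^ 2 ≤ e / 2 := by
    intro x hx
    have h2 : |Real.sin (Real.pi * x)| ≤ |Real.pi * x| := Real.abs_sin_le_abs
    have h3 : Real.sin (Real.pi * x) ^ 2 ≤ (Real.pi * x) ^ 2 := sq_le_sq.2 h2
    have h4 : x ^ 2 ≤ (Real.sqrt e / 5) ^ 2 := by
      rw [← sq_abs x]
      exact pow_le_pow_left₀ (abs_nonneg x) hx 2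
    have h5 : (Real.sqrt e / 5) ^ 2 = e / 25 := by
      rw [div_pow, Real.sq_sqrt he.le]; norm_num
    have hpi := pi_sq_lt
    have h6 : (Real.pi * x) ^ 2 = Real.pi ^ 2 * x ^ 2 := by ring
    nlinarith [sq_nonneg x]
  have := h1 _ hz.1
  have := h1 _ hz.2
  unfold sS sA sB
  linarith

lemma le_integral_gP {e : ℝ} (he : 0 < e) : 1 / 3 ≤ ∫ z in smallSq e, gP e z := by
  have h1 : ∀ z ∈ smallSq e, Real.pi ^ 2 / (4 * e) ≤ gP e z := by
    intro z hz
    have h2 := sS_le_of_mem he hz
    have h3 := sS_nonneg z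
    unfold gP
    rw [div_le_div_iff₀ (by positivity) (pow_pos (denom_pos he z) 2)]
    have h4 : (sS z + e) ^ 2 ≤ (2 * e) ^ 2 := by
      apply pow_le_pow_left₀ (by linarith)
      linarith
    have hpi0 : 0 < Real.pi ^ 2 := by positivity
    calc Real.pi ^ 2 * (sS z + e) ^ 2 ≤ Real.pi ^ 2 * (2 * e) ^ 2 :=
          mul_le_mul_of_nonneg_left h4 hpi0.le
      _ = Real.pi ^ 2 * e * (4 * e) := by ring
  have hfin : volume (smallSq e) ≠ ⊤ := (isCompact_square _).measure_lt_top.ne
  have h5 : ∫ _z in smallSq e, Real.pi ^ 2 / (4 * e) ≤ ∫ z in smallSq e, gP e z := by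
    refine setIntegral_mono_on (integrableOn_const hfin) ?_ (measurableSet_smallSq e) h1
    exact (contDiff_gP he).continuous.continuousOn.integrableOn_compact (isCompact_square _)
  refine le_trans ?_ h5
  have hs : 0 ≤ Real.sqrt e := Real.sqrt_nonneg e
  rw [setIntegral_const, Measure.real, smallSq, volume_square, ENNReal.toReal_mul,
    ENNReal.toReal_ofReal (by positivity)]
  have h6 : 2 * (Real.sqrt e / 5) * (2 * (Real.sqrt e / 5)) = 4 * e / 25 := by
    have := Real.mul_self_sqrt he.le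
    linear_combination (4 / 25) * this
  rw [h6, smul_eq_mul]
  have h7 : 4 * e / 25 * (Real.pi ^ 2 / (4 * e)) = Real.pi ^ 2 / 25 := by
    field_simp
  rw [h7]
  have := Real.pi_gt_three
  nlinarith


/-! ### several variables -/

/-- The weights `q(z_0) ⋯ q(z_{m-1}) P(z_m) ⋯ P(z_{n-1})`. -/
noncomputable def wt (e : ℝ) (m : ℕ) {n : ℕ} (z : Fin n → ℂ) : ℝ :=
  ∏ j : Fin n, (if j.val < m then gq e else gP e) (z j)

/-- Factors of the test functions. -/
noncomputable def fac (e : ℝ) {n : ℕ} (k j : Fin n) : ℂ → ℝ :=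
  if j.val < k.val then gq e else if j = k then gG e else gP e

/-- The test functions `q(z_0) ⋯ q(z_{k-1}) G(z_k) P(z_{k+1}) ⋯ P(z_{n-1})`. -/
noncomputable def tst (e : ℝ) {n : ℕ} (k : Fin n) (z : Fin n → ℂ) : ℝ := ∏ j, fac e k j (z j)

lemma sin_sq_add_int (x : ℝ) (k : ℤ) :
    Real.sin (Real.pi * (x + k)) ^ 2 = Real.sin (Real.pi * x) ^ 2 := by
  have h : Real.pi * (x + k) = Real.pi * x + k * Real.pi := by ring
  rw [h, Real.sin_add_int_mul_pi, mul_pow]
  have : ((-1 : ℝ) ^ k) ^ 2 = 1 := by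
    rw [← zpow_natCast, ← zpow_mul, mul_comm, zpow_mul]
    norm_num
  rw [this, one_mul]

lemma sA_periodic (z : ℂ) (k l : ℤ) : sA (z + ((k : ℂ) + (l : ℂ) * Complex.I)) = sA z := by
  unfold sA
  have : (z + ((k : ℂ) + (l : ℂ) * Complex.I)).re = z.re + k := by simp
  rw [this, sin_sq_add_int]

lemma sB_periodic (z : ℂ) (k l : ℤ) : sB (z + ((k : ℂ) + (l : ℂ) * Complex.I)) = sB z := by
  unfold sB
  have : (z + ((k : ℂ) + (l : ℂ) * Complex.I)).im = z.im + l := by simp
  rw [this, sin_sq_add_int]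

lemma sS_periodic (z : ℂ) (k l : ℤ) : sS (z + ((k : ℂ) + (l : ℂ) * Complex.I)) = sS z := by
  unfold sS
  rw [sA_periodic, sB_periodic]

lemma fac_periodic (e : ℝ) {n : ℕ} (k j : Fin n) (z : ℂ) (a b : ℤ) :
    fac e k j (z + ((a : ℂ) + (b : ℂ) * Complex.I)) = fac e k j z := by
  unfold fac
  split_ifs
  · unfold gq; rw [sS_periodic, sA_periodic, sB_periodic]
  · unfold gG; rw [sS_periodic]
  · unfold gP; rw [sS_periodic]

lemma fac_contDiff {e : ℝ} (he : 0 < e) {n : ℕ} (k j : Fin n) : ContDiff ℝ ∞ (fac e k j) := by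
  unfold fac
  split_ifs
  · exact contDiff_gq he
  · exact contDiff_gG he
  · exact contDiff_gP he

lemma fac_nonneg {e : ℝ} (he : 0 < e) {n : ℕ} (k j : Fin n) (z : ℂ) : 0 ≤ fac e k j z := by
  unfold fac
  split_ifs
  · exact gq_nonneg he z
  · exact gG_nonneg he z
  · exact gP_nonneg he z

lemma tst_periodic (e : ℝ) {n : ℕ} (k : Fin n) : LatticePeriodic (tst e k) := by
  intro a b z
  unfold tst
  exact Finset.prod_congr rfl fun j _ => fac_periodic e k j (z j) (a j) (b j)

lemma tst_contDiff {e : ℝ} (he : 0 < e) {n : ℕ} (k : Fin n) : ContDiff ℝ ∞ (tst e k) := by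
  unfold tst
  exact contDiff_prod fun j _ => (fac_contDiff he k j).comp (contDiff_apply ℝ ℂ j)

lemma tst_nonneg {e : ℝ} (he : 0 < e) {n : ℕ} (k : Fin n) (z : Fin n → ℂ) : 0 ≤ tst e k z :=
  Finset.prod_nonneg fun j _ => fac_nonneg he k j (z j)

lemma wt_contDiff {e : ℝ} (he : 0 < e) (m n : ℕ) : ContDiff ℝ ∞ (wt e m : (Fin n → ℂ) → ℝ) := by
  unfold wt
  refine contDiff_prod fun j _ => ?_
  split_ifs
  · exact (contDiff_gq he).comp (contDiff_apply ℝ ℂ j)
  · exact (contDiff_gP he).comp (contDiff_apply ℝ ℂ j)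

lemma leviForm_tst {e : ℝ} (he : 0 < e) {n : ℕ} (k : Fin n) (z : Fin n → ℂ) :
    leviForm (tst e k) z (Pi.single k 1) = wt e k.val z - wt e (k.val + 1) z := by
  classical
  set c : ℝ := ∏ j ∈ Finset.univ.erase k, fac e k j (z j) with hc
  have key : ∀ (a : ℂ) (t : ℝ), tst e k (fun j => z j + (t : ℂ) * (a * Pi.single (M := fun _ => ℂ) k 1 j)) =
      c * gG e (z k + (t : ℂ) * (a * 1)) := by
    intro a t
    unfold tst
    rw [← Finset.mul_prod_erase Finset.univ _ (Finset.mem_univ k), mul_comm, hc]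
    congr 1
    · refine Finset.prod_congr rfl fun j hj => ?_
      have : j ≠ k := Finset.ne_of_mem_erase hj
      simp [this]
    · simp [fac]
  have e1 : (fun t : ℝ => tst e k (fun j => z j + (t : ℂ) * Pi.single (M := fun _ => ℂ) k 1 j)) =
      fun t : ℝ => c * gG e (z k + (t : ℂ) * 1) := by
    funext t
    simpa using key 1 t
  have e2 : (fun t : ℝ => tst e k (fun j => z j + (t : ℂ) * (Complex.I * Pi.single (M := fun _ => ℂ) k 1 j))) =
      fun t : ℝ => c * gG e (z k + (t : ℂ) * (Complex.I * 1)) := by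
    funext t
    exact key Complex.I t
  have w1 : wt e k.val z = c * gP e (z k) := by
    unfold wt
    rw [← Finset.mul_prod_erase Finset.univ _ (Finset.mem_univ k), mul_comm, hc]
    congr 1
    · refine Finset.prod_congr rfl fun j hj => ?_
      have : j ≠ k := Finset.ne_of_mem_erase hj
      simp [fac, this]
    · simp
  have w2 : wt e (k.val + 1) z = c * gq e (z k) := by
    unfold wt
    rw [← Finset.mul_prod_erase Finset.univ _ (Finset.mem_univ k), mul_comm, hc]
    congr 1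
    · refine Finset.prod_congr rfl fun j hj => ?_
      have hjk : j ≠ k := Finset.ne_of_mem_erase hj
      have hjk' : j.val ≠ k.val := fun h => hjk (Fin.ext h)
      have : j.val < k.val + 1 ↔ j.val < k.val := by omega
      simp [fac, hjk, this]
    · simp
  unfold leviForm
  rw [e1, e2, iteratedDeriv_const_mul_field, iteratedDeriv_const_mul_field, ← mul_add,
    laplace_gG he, w1, w2]
  ring

lemma cell_eq_pi (n : ℕ) : cell n = Set.univ.pi (fun _ => sq) := by
  ext z
  simp [cell, sq]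

lemma isCompact_cell (n : ℕ) : IsCompact (cell n) := by
  rw [cell_eq_pi]
  exact isCompact_univ_pi fun _ => isCompact_sq

lemma measurableSet_cell (n : ℕ) : MeasurableSet (cell n) := (isCompact_cell n).measurableSet

lemma integral_pi_prod {n : ℕ} (S : Set ℂ) (f : Fin n → ℂ → ℝ) :
    ∫ z in Set.univ.pi (fun _ : Fin n => S), ∏ j, f j (z j) = ∏ j, ∫ z in S, f j z := by
  rw [volume_pi, Measure.restrict_pi_pi, integral_fintype_prod_eq_prod]

lemma integral_cell_prod {n : ℕ} (f : Fin n → ℂ → ℝ) :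
    ∫ z in cell n, ∏ j, f j (z j) = ∏ j, ∫ z in sq, f j z := by
  rw [cell_eq_pi, integral_pi_prod]

lemma integrableOn_cell {n : ℕ} {F : (Fin n → ℂ) → ℝ} (hF : Continuous F) :
    IntegrableOn F (cell n) :=
  hF.continuousOn.integrableOn_compact (isCompact_cell n)

lemma wt_nonneg {e : ℝ} (he : 0 < e) (m : ℕ) {n : ℕ} (z : Fin n → ℂ) : 0 ≤ wt e m z := by
  refine Finset.prod_nonneg fun j _ => ?_
  split_ifs
  · exact gq_nonneg he _
  · exact gP_nonneg he _

lemma wt_full_le {e : ℝ} (he : 0 < e) {n : ℕ} (z : Fin n → ℂ) : wt e n z ≤ 8 ^ n := by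
  unfold wt
  calc ∏ j : Fin n, (if j.val < n then gq e else gP e) (z j) ≤ ∏ _j : Fin n, (8 : ℝ) := by
        refine Finset.prod_le_prod (fun j _ => ?_) (fun j _ => ?_)
        · rw [if_pos j.isLt]; exact gq_nonneg he _
        · rw [if_pos j.isLt]; exact gq_le he _
    _ = 8 ^ n := by simp

/-- bound for an integral of a product of nonnegative functions, one of them bounded by `L` and
all others by `9`. -/
lemma prod_integral_le {n : ℕ} (k : Fin n) (f : Fin n → ℂ → ℝ) (L : ℝ) (hL : 0 ≤ L)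
    (h0 : ∀ j z, 0 ≤ f j z) (hk : ∫ z in sq, f k z ≤ L) (hj : ∀ j, j ≠ k → ∫ z in sq, f j z ≤ 9) :
    ∫ z in cell n, ∏ j, f j (z j) ≤ 9 ^ n * L := by
  classical
  rw [integral_cell_prod, ← Finset.mul_prod_erase Finset.univ _ (Finset.mem_univ k)]
  have h1 : ∏ j ∈ Finset.univ.erase k, ∫ z in sq, f j z ≤ 9 ^ n := by
    calc ∏ j ∈ Finset.univ.erase k, ∫ z in sq, f j z ≤ ∏ _j ∈ Finset.univ.erase k, (9 : ℝ) := by
          refine Finset.prod_le_prod (fun j _ => integral_nonneg fun z => h0 j z) fun j hj' => ?_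
          exact hj j (Finset.ne_of_mem_erase hj')
      _ = 9 ^ (Finset.univ.erase k).card := by simp
      _ ≤ 9 ^ n := by
          refine pow_le_pow_right₀ (by norm_num) ?_
          refine (Finset.card_le_univ _).trans ?_
          simp
  have h2 : 0 ≤ ∏ j ∈ Finset.univ.erase k, ∫ z in sq, f j z :=
    Finset.prod_nonneg fun j _ => integral_nonneg fun z => h0 j z
  calc (∫ z in sq, f k z) * ∏ j ∈ Finset.univ.erase k, ∫ z in sq, f j z
      ≤ L * 9 ^ n := mul_le_mul hk h1 h2 hL
    _ = 9 ^ n * L := by ring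

/-- the basic estimate for the test functions. -/
lemma integral_fac_le {e : ℝ} (he : 0 < e) {n : ℕ} (k j : Fin n) (hjk : j ≠ k) :
    ∫ z in sq, fac e k j z ≤ 8 := by
  unfold fac
  split_ifs
  · exact integral_gq_le he
  · exact integral_gP_le he

lemma integral_fac_self {e : ℝ} (he : 0 < e) (he1 : e ≤ 1) {n : ℕ} (k : Fin n) :
    ∫ z in sq, fac e k k z ≤ Real.log 3 - Real.log e := by
  unfold fac
  simp only [lt_self_iff_false, if_false, if_true]
  exact integral_gG_le he he1

lemma logBound_nonneg {e : ℝ} (he : 0 < e) (he1 : e ≤ 1) : 0 ≤ Real.log 3 - Real.log e := by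
  have := Real.log_nonpos he.le he1
  have := Real.log_nonneg (by norm_num : (1 : ℝ) ≤ 3)
  linarith

/-- If `H ≤ 1 + K s(z_i)` for some index `i > k`, or `H ≤ 1`, the term `∫ H χ_k` is at most
`9 ^ n (log 3 - log e)`. -/
lemma integral_H_tst_le_one {e : ℝ} (he : 0 < e) (he1 : e ≤ 1) {n : ℕ} (k : Fin n)
    (H : (Fin n → ℂ) → ℝ) (hH : Continuous H) (hb : ∀ z, H z ≤ 1) :
    ∫ z in cell n, H z * tst e k z ≤ 9 ^ n * (Real.log 3 - Real.log e) := by
  have h1 : ∫ z in cell n, H z * tst e k z ≤ ∫ z in cell n, tst e k z := by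
    refine setIntegral_mono (integrableOn_cell (hH.mul (tst_contDiff he k).continuous))
      (integrableOn_cell (tst_contDiff he k).continuous) fun z => ?_
    have := tst_nonneg he k z
    have := hb z
    simp only
    nlinarith
  refine h1.trans ?_
  unfold tst
  exact prod_integral_le k (fac e k) _ (logBound_nonneg he he1) (fun j z => fac_nonneg he k j z)
    (integral_fac_self he he1 k) (fun j hj => (integral_fac_le he k j hj).trans (by norm_num))

lemma integral_H_tst_le {e : ℝ} (he : 0 < e) (he1 : e ≤ 1) {n : ℕ} (k i : Fin n) (hki : k.val < i.val)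
    (K : ℝ) (hK : 0 ≤ K) (hKe : K * ∫ z in sq, sS z * gP e z ≤ 1)
    (H : (Fin n → ℂ) → ℝ) (hH : Continuous H) (hb : ∀ z, H z ≤ 1 + K * sS (z i)) :
    ∫ z in cell n, H z * tst e k z ≤ 9 ^ n * (Real.log 3 - Real.log e) := by
  classical
  set f : Fin n → ℂ → ℝ := fun j z => if j = i then (1 + K * sS z) * gP e z else fac e k j z with hf
  have hik : i ≠ k := fun h => by rw [h] at hki; exact lt_irrefl _ hki
  have hfac : ∀ z, fac e k i z = gP e z := by
    intro z
    unfold fac
    rw [if_neg (by omega), if_neg hik]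
  have hprod : ∀ z : Fin n → ℂ, (1 + K * sS (z i)) * tst e k z = ∏ j, f j (z j) := by
    intro z
    unfold tst
    rw [← Finset.mul_prod_erase Finset.univ _ (Finset.mem_univ i),
      ← Finset.mul_prod_erase Finset.univ (fun j => f j (z j)) (Finset.mem_univ i), hfac,
      ← mul_assoc]
    congr 1
    · simp [hf]
    · refine Finset.prod_congr rfl fun j hj => ?_
      have : j ≠ i := Finset.ne_of_mem_erase hj
      simp [hf, this]
  have hcont : Continuous fun z : Fin n → ℂ => (1 + K * sS (z i)) * tst e k z :=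
    (continuous_const.add (continuous_const.mul (contDiff_sS.continuous.comp (continuous_apply i)))).mul
      (tst_contDiff he k).continuous
  have h1 : ∫ z in cell n, H z * tst e k z ≤ ∫ z in cell n, (1 + K * sS (z i)) * tst e k z := by
    refine setIntegral_mono (integrableOn_cell (hH.mul (tst_contDiff he k).continuous))
      (integrableOn_cell hcont) fun z => ?_
    exact mul_le_mul_of_nonneg_right (hb z) (tst_nonneg he k z)
  refine h1.trans ?_
  simp_rw [hprod]
  refine prod_integral_le k f _ (logBound_nonneg he he1) ?_ ?_ ?_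
  · intro j z
    simp only [hf]
    split_ifs
    · have := sS_nonneg z
      have := gP_nonneg he z
      positivity
    · exact fac_nonneg he k j z
  · simp only [hf, if_neg hik.symm]
    exact integral_fac_self he he1 k
  · intro j hj
    simp only [hf]
    split_ifs with hji
    · have e1 : ∀ z, (1 + K * sS z) * gP e z = gP e z + K * (sS z * gP e z) := fun z => by ring
      simp_rw [e1]
      have i1 : IntegrableOn (fun z => gP e z) sq := integrableOn_sq (contDiff_gP he).continuous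
      have i2 : IntegrableOn (fun z => K * (sS z * gP e z)) sq := integrableOn_sq
        (continuous_const.mul (contDiff_sS.continuous.mul (contDiff_gP he).continuous))
      rw [integral_add i1 i2, integral_const_mul]
      have := integral_gP_le he
      linarith
    · exact (integral_fac_le he k j hj).trans (by norm_num)

/-- Telescoping: the lower bound. -/
lemma lower_bound {e : ℝ} (he : 0 < e) {n : ℕ} (u : (Fin n → ℂ) → ℝ)
    (hu : IntegrableOn u (cell n)) (H : Fin n → (Fin n → ℂ) → ℝ) (hH : ∀ k, Continuous (H k))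
    (B : ℝ)
    (htest : ∀ k : Fin n, 0 ≤ ∫ z in cell n, (H k z * tst e k z +
      u z * leviForm (tst e k) z (Pi.single k 1)))
    (hB : ∀ k : Fin n, ∫ z in cell n, H k z * tst e k z ≤ B) :
    -(8 ^ n * ∫ z in cell n, |u z|) - n * B ≤ ∫ z in cell n, u z * wt e 0 z := by
  have hint : ∀ m : ℕ, IntegrableOn (fun z => u z * wt e m z) (cell n) := fun m =>
    hu.mul_continuousOn (wt_contDiff he m n).continuous.continuousOn (isCompact_cell n)
  have hstep : ∀ m : ℕ, m ≤ n →
      (∫ z in cell n, u z * wt e m z) - m * B ≤ ∫ z in cell n, u z * wt e 0 z := by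
    intro m
    induction m with
    | zero => intro _; simp
    | succ m ih =>
      intro hm
      have ih' := ih (by omega)
      set k : Fin n := ⟨m, by omega⟩ with hk
      have h1 := htest k
      have h2 := hB k
      have h3 : ∫ z in cell n, (H k z * tst e k z + u z * leviForm (tst e k) z (Pi.single k 1)) =
          (∫ z in cell n, H k z * tst e k z) + ((∫ z in cell n, u z * wt e m z) -
            ∫ z in cell n, u z * wt e (m + 1) z) := by
        rw [← integral_sub (hint m) (hint (m + 1)), ← integral_add]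
        · refine integral_congr_ae (Eventually.of_forall fun z => ?_)
          simp only
          rw [leviForm_tst he]
          ring
        · exact integrableOn_cell ((hH k).mul (tst_contDiff he k).continuous)
        · exact (hint m).sub (hint (m + 1))
      rw [h3] at h1
      push_cast
      linarith
  have h1 := hstep n le_rfl
  have h2 : -(8 ^ n * ∫ z in cell n, |u z|) ≤ ∫ z in cell n, u z * wt e n z := by
    rw [← integral_const_mul, ← integral_neg]
    refine setIntegral_mono ?_ (hint n) fun z => ?_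
    · exact ((hu.abs).const_mul _).neg
    · have h3 := wt_full_le he z
      have h4 := wt_nonneg he n z
      have h5 : |u z * wt e n z| ≤ 8 ^ n * |u z| := by
        rw [abs_mul, abs_of_nonneg h4, mul_comm]
        exact mul_le_mul_of_nonneg_right h3 (abs_nonneg _)
      have h6 := neg_abs_le (u z * wt e n z)
      simp only
      linarith
  linarith

lemma wt_zero_eq (e : ℝ) {n : ℕ} (z : Fin n → ℂ) : wt e 0 z = ∏ j, gP e (z j) := by
  unfold wt
  exact Finset.prod_congr rfl fun j _ => by simp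

/-- The small cube around the pole. -/
def smallCube (e : ℝ) (n : ℕ) : Set (Fin n → ℂ) := Set.univ.pi fun _ => smallSq e

lemma smallCube_subset {e : ℝ} (he1 : e ≤ 1) (n : ℕ) : smallCube e n ⊆ cell n := by
  rw [cell_eq_pi]
  exact Set.pi_mono fun _ _ => smallSq_subset he1

lemma measurableSet_smallCube (e : ℝ) (n : ℕ) : MeasurableSet (smallCube e n) :=
  MeasurableSet.univ_pi fun _ => measurableSet_smallSq e

lemma upper_bound {e : ℝ} (he : 0 < e) (he1 : e ≤ 1) {n : ℕ} (u : (Fin n → ℂ) → ℝ)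
    (hu : IntegrableOn u (cell n)) (M Y : ℝ) (hM : 0 ≤ M) (hY : 0 ≤ Y)
    (huM : ∀ᵐ z ∂(volume.restrict (cell n)), u z ≤ M)
    (huY : ∀ᵐ z ∂(volume.restrict (smallCube e n)), u z ≤ -Y) :
    ∫ z in cell n, u z * wt e 0 z ≤ M * 8 ^ n - (1 / 3) ^ n * Y := by
  have hwc : Continuous (wt e 0 : (Fin n → ℂ) → ℝ) := (wt_contDiff he 0 n).continuous
  have hint : IntegrableOn (fun z => u z * wt e 0 z) (cell n) :=
    hu.mul_continuousOn hwc.continuousOn (isCompact_cell n)
  have hint2 : IntegrableOn (fun z => M * wt e 0 z) (cell n) :=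
    integrableOn_cell (continuous_const.mul hwc)
  have hint3 : IntegrableOn (fun z => (M - u z) * wt e 0 z) (cell n) := by
    have : (fun z => (M - u z) * wt e 0 z) = fun z => M * wt e 0 z - u z * wt e 0 z := by
      funext z; ring
    rw [this]
    exact hint2.sub hint
  have h1 : ∫ z in cell n, u z * wt e 0 z =
      M * (∫ z in cell n, wt e 0 z) - ∫ z in cell n, (M - u z) * wt e 0 z := by
    rw [← integral_const_mul, ← integral_sub hint2 hint3]
    refine integral_congr_ae (Eventually.of_forall fun z => ?_)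
    simp only
    ring
  have h2 : ∫ z in cell n, wt e 0 z ≤ 8 ^ n := by
    simp_rw [wt_zero_eq]
    rw [integral_cell_prod (fun _ => gP e)]
    calc ∏ _j : Fin n, ∫ z in sq, gP e z ≤ ∏ _j : Fin n, (8 : ℝ) :=
          Finset.prod_le_prod (fun j _ => integral_nonneg fun z => gP_nonneg he z)
            fun j _ => integral_gP_le he
      _ = 8 ^ n := by simp
  have h3 : ∫ z in smallCube e n, (M - u z) * wt e 0 z ≤ ∫ z in cell n, (M - u z) * wt e 0 z := by
    refine setIntegral_mono_set hint3 ?_ (LE.le.eventuallyLE (smallCube_subset he1 n))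
    filter_upwards [huM] with z hz
    exact mul_nonneg (by linarith) (wt_nonneg he 0 z)
  have h4 : ∫ z in smallCube e n, Y * wt e 0 z ≤ ∫ z in smallCube e n, (M - u z) * wt e 0 z := by
    refine integral_mono_ae ?_ ?_ ?_
    · exact (integrableOn_cell (continuous_const.mul hwc)).mono_set (smallCube_subset he1 n)
    · exact hint3.mono_set (smallCube_subset he1 n)
    · filter_upwards [huY] with z hz
      exact mul_le_mul_of_nonneg_right (by linarith) (wt_nonneg he 0 z)
  have h5 : (1 / 3) ^ n ≤ ∫ z in smallCube e n, wt e 0 z := by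
    simp_rw [wt_zero_eq]
    unfold smallCube
    rw [integral_pi_prod (smallSq e) (fun _ => gP e)]
    calc ((1 : ℝ) / 3) ^ n = ∏ _j : Fin n, (1 / 3 : ℝ) := by simp
      _ ≤ ∏ _j : Fin n, ∫ z in smallSq e, gP e z :=
          Finset.prod_le_prod (fun j _ => by norm_num) fun j _ => le_integral_gP he
  rw [integral_const_mul] at h4
  have h6 : (1 / 3) ^ n * Y ≤ Y * ∫ z in smallCube e n, wt e 0 z := by
    rw [mul_comm]
    exact mul_le_mul_of_nonneg_left h5 hY
  have h7 : M * ∫ z in cell n, wt e 0 z ≤ M * 8 ^ n := mul_le_mul_of_nonneg_left h2 hM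
  linarith

lemma euclNorm_le_of_mem {e : ℝ} (he : 0 < e) {n : ℕ} {z : Fin n → ℂ} (hz : z ∈ smallCube e n) :
    euclNorm z ≤ Real.sqrt n * Real.sqrt e := by
  unfold euclNorm
  rw [← Real.sqrt_mul (Nat.cast_nonneg n)]
  refine Real.sqrt_le_sqrt ?_
  calc ∑ j, ‖z j‖ ^ 2 ≤ ∑ _j : Fin n, e := by
        refine Finset.sum_le_sum fun j _ => ?_
        have h1 : z j ∈ smallSq e := hz j (Set.mem_univ j)
        have h2 : ‖z j‖ ^ 2 = (z j).re ^ 2 + (z j).im ^ 2 := by
          rw [← Complex.normSq_eq_norm_sq, Complex.normSq_apply]; ring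
        have h3 : ∀ x : ℝ, |x| ≤ Real.sqrt e / 5 → x ^ 2 ≤ e / 25 := by
          intro x hx
          have h4 : x ^ 2 ≤ (Real.sqrt e / 5) ^ 2 := by
            rw [← sq_abs x]
            exact pow_le_pow_left₀ (abs_nonneg x) hx 2
          rwa [div_pow, Real.sq_sqrt he.le, show (5 : ℝ) ^ 2 = 25 by norm_num] at h4
        have := h3 _ h1.1
        have := h3 _ h1.2
        rw [h2]
        linarith
    _ = n * e := by simp

lemma euclNorm_pos {n : ℕ} {z : Fin n → ℂ} (hz : z ≠ 0) : 0 < euclNorm z := by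
  unfold euclNorm
  refine Real.sqrt_pos.2 ?_
  obtain ⟨j, hj⟩ := Function.ne_iff.1 hz
  have h1 : 0 < ‖z j‖ ^ 2 := by
    have : z j ≠ 0 := hj
    positivity
  exact lt_of_lt_of_le h1 (Finset.single_le_sum (f := fun j => ‖z j‖ ^ 2)
    (fun i _ => by positivity) (Finset.mem_univ j))

/-- The constant bounding pole strengths. -/
noncomputable def tauN (n : ℕ) : ℝ := 2 * 3 ^ n * (n * 9 ^ n + 1)

lemma core {n : ℕ} (hn : 0 < n) (h : (Fin n → ℂ) → Matrix (Fin n) (Fin n) ℂ)
    (H : Fin n → (Fin n → ℂ) → ℝ) (hH : ∀ k, Continuous (H k))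
    (hdiag : ∀ k z, hermForm (h z) (Pi.single k 1) = H k z)
    (K : ℝ) (hK : 0 ≤ K)
    (hb : ∀ k : Fin n, (∀ z, H k z ≤ 1) ∨ ∃ i : Fin n, k.val < i.val ∧ ∀ z, H k z ≤ 1 + K * sS (z i))
    (φ : (Fin n → ℂ) → EReal) (hφ : IsOmegaPsh h φ) (hpole : HasLogPole φ (tauN n)) : False := by
  obtain ⟨C, δ, hδ, hpole⟩ := hpole
  have hn1 : (1 : ℝ) ≤ n := by exact_mod_cast hn
  set u : (Fin n → ℂ) → ℝ := fun z => (φ z).toReal with hu
  -- global upper bound
  obtain ⟨M, hM0, hM⟩ : ∃ M : ℝ, 0 ≤ M ∧ ∀ z ∈ cell n, φ z ≠ ⊥ → u z ≤ M := by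
    have hne : (cell n).Nonempty := ⟨0, by intro j; simp⟩
    obtain ⟨a, _, ha⟩ := (hφ.usc.upperSemicontinuousOn (cell n)).exists_isMaxOn hne
      (isCompact_cell n)
    refine ⟨max 0 (φ a).toReal, le_max_left _ _, fun z hz hz' => ?_⟩
    exact (EReal.toReal_le_toReal (ha hz) hz' (hφ.lt_top a).ne).trans (le_max_right _ _)
  set τ := tauN n with hτ
  have hτ0 : 0 < τ := by rw [hτ]; unfold tauN; positivity
  set I1 : ℝ := ∫ z in cell n, |u z| with hI1
  -- choose e
  have ev1 : ∀ᶠ e : ℝ in 𝓝[>] 0, 0 < e := self_mem_nhdsWithin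
  have ev2 : ∀ᶠ e : ℝ in 𝓝[>] 0, e < 1 :=
    nhdsWithin_le_nhds (Iio_mem_nhds (by norm_num))
  have ev3 : ∀ᶠ e : ℝ in 𝓝[>] 0, K * ∫ z in sq, sS z * gP e z < 1 := by
    have := (tendsto_integral_sS_gP.const_mul K)
    rw [mul_zero] at this
    exact this.eventually (Iio_mem_nhds (by norm_num))
  have ev4 : ∀ᶠ e : ℝ in 𝓝[>] 0, Real.sqrt n * Real.sqrt e < δ := by
    have h1 : Tendsto (fun e : ℝ => Real.sqrt n * Real.sqrt e) (𝓝 0) (𝓝 (Real.sqrt n * Real.sqrt 0)) :=
      (continuous_const.mul Real.continuous_sqrt).tendsto 0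
    rw [Real.sqrt_zero, mul_zero] at h1
    exact (h1.mono_left nhdsWithin_le_nhds).eventually (Iio_mem_nhds hδ)
  set X0 : ℝ := max ((2 / τ) * (τ * Real.log (Real.sqrt n) + |C|))
    (M * 8 ^ n + 8 ^ n * I1 + n * 9 ^ n * Real.log 3 +
      (1 / 3) ^ n * (τ * Real.log (Real.sqrt n) + C)) with hX0
  have ev5 : ∀ᶠ e : ℝ in 𝓝[>] 0, X0 < -Real.log e := by
    have h1 : Tendsto (fun e : ℝ => -Real.log e) (𝓝[>] 0) atTop :=
      tendsto_neg_atBot_atTop.comp Real.tendsto_log_nhdsGT_zero
    exact h1.eventually (eventually_gt_atTop X0)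
  obtain ⟨e, he, he1, he3, he4, he5⟩ :=
    (ev1.and (ev2.and (ev3.and (ev4.and ev5)))).exists
  have hsq : Real.log (Real.sqrt e) = Real.log e / 2 := Real.log_sqrt he.le
  have hsn : 0 < Real.sqrt n := Real.sqrt_pos.2 (by linarith)
  have hse : 0 < Real.sqrt e := Real.sqrt_pos.2 he
  set Y : ℝ := -(τ * Real.log (Real.sqrt n * Real.sqrt e) + C) with hYdef
  have hlogmul : Real.log (Real.sqrt n * Real.sqrt e) = Real.log (Real.sqrt n) + Real.log e / 2 := by
    rw [Real.log_mul hsn.ne' hse.ne', hsq]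
  have hY' : Y = τ / 2 * (-Real.log e) - (τ * Real.log (Real.sqrt n) + C) := by
    rw [hYdef, hlogmul]; ring
  have hX1 : (2 / τ) * (τ * Real.log (Real.sqrt n) + |C|) < -Real.log e :=
    lt_of_le_of_lt (le_max_left _ _) he5
  have hX2 : M * 8 ^ n + 8 ^ n * I1 + n * 9 ^ n * Real.log 3 +
      (1 / 3) ^ n * (τ * Real.log (Real.sqrt n) + C) < -Real.log e :=
    lt_of_le_of_lt (le_max_right _ _) he5
  have hY0 : 0 ≤ Y := by
    have h1 : τ * Real.log (Real.sqrt n) + |C| < τ / 2 * (-Real.log e) := by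
      have h2 := mul_lt_mul_of_pos_left hX1 (by positivity : 0 < τ / 2)
      have h3 : τ / 2 * ((2 / τ) * (τ * Real.log (Real.sqrt n) + |C|)) =
          τ * Real.log (Real.sqrt n) + |C| := by
        field_simp
      linarith
    have h4 := le_abs_self C
    rw [hY']
    linarith
  -- the two bounds
  have hlow := lower_bound he u hφ.integrable H hH (9 ^ n * (Real.log 3 - Real.log e))
    (fun k => by
      have h1 := hφ.positive (Pi.single k 1) (tst e k) (tst_contDiff he k) (tst_periodic e k)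
        (tst_nonneg he k)
      simpa only [hdiag] using h1)
    (fun k => by
      rcases hb k with h1 | ⟨i, hi, h1⟩
      · exact integral_H_tst_le_one he he1.le k (H k) (hH k) h1
      · exact integral_H_tst_le he he1.le k i hi K hK he3.le (H k) (hH k) h1)
  have hup := upper_bound he he1.le u hφ.integrable M Y hM0 hY0
    (by
      filter_upwards [ae_restrict_mem (measurableSet_cell n), ae_restrict_of_ae hφ.ae_finite]
        with z hz hz' using hM z hz hz')
    (by
      have hz0 : ∀ᵐ z : Fin n → ℂ, z ≠ 0 := by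
        have : Nonempty (Fin n) := ⟨⟨0, hn⟩⟩
        exact Measure.ae_ne volume 0
      filter_upwards [ae_restrict_mem (measurableSet_smallCube e n),
        ae_restrict_of_ae hφ.ae_finite, ae_restrict_of_ae hz0] with z hz hz' hz0
      have h1 := euclNorm_le_of_mem he hz
      have h2 := hpole z hz0 (lt_of_le_of_lt h1 he4)
      have h3 := EReal.toReal_le_toReal h2 hz' (EReal.coe_ne_top _)
      rw [EReal.toReal_coe] at h3
      have h4 : Real.log (euclNorm z) ≤ Real.log (Real.sqrt n * Real.sqrt e) :=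
        Real.log_le_log (euclNorm_pos hz0) h1
      have h5 := mul_le_mul_of_nonneg_left h4 hτ0.le
      simp only [hu, hYdef]
      linarith)
  have hfin := hlow.trans hup
  have h13 : (0 : ℝ) < (1 / 3) ^ n := by positivity
  have hτ' : (1 / 3) ^ n * (τ / 2) = n * 9 ^ n + 1 := by
    rw [hτ]; unfold tauN
    have : ((1 : ℝ) / 3) ^ n * 3 ^ n = 1 := by
      rw [← mul_pow]; norm_num
    linear_combination (n * 9 ^ n + 1 : ℝ) * this
  have h6 : (1 / 3) ^ n * Y = (n * 9 ^ n + 1) * (-Real.log e) -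
      (1 / 3) ^ n * (τ * Real.log (Real.sqrt n) + C) := by
    rw [hY', mul_sub, ← mul_assoc, hτ']
  rw [h6] at hfin
  simp only [← hI1] at hfin
  linarith [hfin, hX2]

/-! ### the metric -/

lemma val_two' (m : ℕ) : ((2 : Fin (m + 3)) : ℕ) = 2 :=
  show 2 % (m + 3) = 2 from Nat.mod_eq_of_lt (by omega)

lemma two_ne_zero' (m : ℕ) : (2 : Fin (m + 3)) ≠ 0 := by
  intro h; have := congrArg Fin.val h; rw [val_two'] at this; simp at this

lemma two_ne_one' (m : ℕ) : (2 : Fin (m + 3)) ≠ 1 := by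
  intro h; have := congrArg Fin.val h; rw [val_two'] at this; simp at this

noncomputable def cc {m : ℕ} (A : ℝ) (z : Fin (m + 3) → ℂ) : ℝ := A * sS (z 1) * (2 - sS (z 2))
noncomputable def dd {m : ℕ} (A : ℝ) (z : Fin (m + 3) → ℂ) : ℝ := A * sS (z 1) * sS (z 2)

noncomputable def mH {m : ℕ} (A : ℝ) (k : Fin (m + 3)) (z : Fin (m + 3) → ℂ) : ℝ :=
  if k = 0 then Real.exp (cc A z) else if k = 1 then Real.exp (dd A z)
    else if k = 2 then Real.exp (-cc A z) else 1

noncomputable def metric {m : ℕ} (A : ℝ) (z : Fin (m + 3) → ℂ) :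
    Matrix (Fin (m + 3)) (Fin (m + 3)) ℂ :=
  Matrix.diagonal fun k => ((mH A k z : ℝ) : ℂ)

lemma contDiff_cc {m : ℕ} (A : ℝ) : ContDiff ℝ ∞ (cc A : (Fin (m + 3) → ℂ) → ℝ) := by
  unfold cc
  exact (contDiff_const.mul (contDiff_sS.comp (contDiff_apply ℝ ℂ 1))).mul
    (contDiff_const.sub (contDiff_sS.comp (contDiff_apply ℝ ℂ 2)))

lemma contDiff_dd {m : ℕ} (A : ℝ) : ContDiff ℝ ∞ (dd A : (Fin (m + 3) → ℂ) → ℝ) := by
  unfold dd
  exact (contDiff_const.mul (contDiff_sS.comp (contDiff_apply ℝ ℂ 1))).mul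
    (contDiff_sS.comp (contDiff_apply ℝ ℂ 2))

lemma contDiff_mH {m : ℕ} (A : ℝ) (k : Fin (m + 3)) : ContDiff ℝ ∞ (mH A k) := by
  unfold mH
  split_ifs
  · exact (contDiff_cc A).exp
  · exact (contDiff_dd A).exp
  · exact (contDiff_cc A).neg.exp
  · exact contDiff_const

lemma mH_pos {m : ℕ} (A : ℝ) (k : Fin (m + 3)) (z : Fin (m + 3) → ℂ) : 0 < mH A k z := by
  unfold mH
  split_ifs <;> first | exact Real.exp_pos _ | exact one_pos

lemma prod_mH {m : ℕ} (A : ℝ) (z : Fin (m + 3) → ℂ) : ∏ k, mH A k z = Real.exp (dd A z) := by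
  rw [Fin.prod_univ_succ, Fin.prod_univ_succ, Fin.prod_univ_succ]
  have h0 : mH A 0 z = Real.exp (cc A z) := by simp [mH]
  have h1 : mH A (Fin.succ 0) z = Real.exp (dd A z) := by
    have : (Fin.succ 0 : Fin (m + 3)) ≠ 0 := Fin.succ_ne_zero _
    simp [mH]
  have h2 : mH A (Fin.succ (Fin.succ 0)) z = Real.exp (-cc A z) := by
    have e2 : (Fin.succ (Fin.succ 0) : Fin (m + 3)) = 2 := rfl
    have e3 := two_ne_zero' m
    have e4 := two_ne_one' m
    rw [e2]
    simp [mH, e3, e4]
  have h3 : ∀ i : Fin m, mH A (Fin.succ (Fin.succ (Fin.succ i))) z = 1 := by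
    intro i
    have a0 : (Fin.succ (Fin.succ (Fin.succ i)) : Fin (m + 3)) ≠ 0 := Fin.succ_ne_zero _
    have a1 : (Fin.succ (Fin.succ (Fin.succ i)) : Fin (m + 3)) ≠ 1 := by
      intro h; have := congrArg Fin.val h; simp at this
    have a2 : (Fin.succ (Fin.succ (Fin.succ i)) : Fin (m + 3)) ≠ 2 := by
      intro h; have := congrArg Fin.val h; rw [val_two'] at this; simp at this
    simp [mH, a0, a1, a2]
  rw [h0, h1, h2]
  simp only [h3, Finset.prod_const_one, mul_one]
  rw [← mul_assoc, mul_comm (Real.exp (cc A z)), mul_assoc, ← Real.exp_add]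
  simp

lemma mH_periodic {m : ℕ} (A : ℝ) (k : Fin (m + 3)) : LatticePeriodic (mH A k) := by
  intro a b z
  have h1 : cc A (fun j => z j + ((a j : ℂ) + (b j : ℂ) * Complex.I)) = cc A z := by
    unfold cc; rw [sS_periodic, sS_periodic]
  have h2 : dd A (fun j => z j + ((a j : ℂ) + (b j : ℂ) * Complex.I)) = dd A z := by
    unfold dd; rw [sS_periodic, sS_periodic]
  unfold mH
  rw [h1, h2]

lemma hermForm_diagonal {n : ℕ} (d : Fin n → ℝ) (ξ : Fin n → ℂ) :
    hermForm (Matrix.diagonal fun k => ((d k : ℝ) : ℂ)) ξ = ∑ j, d j * Complex.normSq (ξ j) := by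
  unfold hermForm
  rw [Complex.re_sum]
  refine Finset.sum_congr rfl fun j _ => ?_
  rw [Finset.sum_eq_single j]
  · rw [Matrix.diagonal_apply_eq, mul_assoc, Complex.mul_conj, ← Complex.ofReal_mul,
      Complex.ofReal_re]
  · intro k _ hk
    rw [Matrix.diagonal_apply_ne _ hk.symm]
    simp
  · intro h; exact absurd (Finset.mem_univ j) h

lemma metric_isHermitianMetric {m : ℕ} (A : ℝ) :
    IsHermitianMetric (metric A : (Fin (m + 3) → ℂ) → _) where
  periodic := by
    intro a b z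
    unfold metric
    congr 1
    funext k
    rw [mH_periodic A k a b z]
  smooth := by
    intro j k
    unfold metric
    by_cases hjk : j = k
    · subst hjk
      simp only [Matrix.diagonal_apply_eq]
      exact Complex.ofRealCLM.contDiff.comp (contDiff_mH A j)
    · simp only [Matrix.diagonal_apply_ne _ hjk]
      exact contDiff_const
  hermitian := by
    intro z
    unfold metric
    rw [Matrix.isHermitian_diagonal_iff]
    intro k
    exact Complex.conj_ofReal _
  pos := by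
    intro z ξ hξ
    unfold metric
    rw [hermForm_diagonal]
    obtain ⟨j, hj⟩ := Function.ne_iff.1 hξ
    have hj' : ξ j ≠ 0 := hj
    refine Finset.sum_pos' (fun i _ => mul_nonneg (mH_pos A i z).le (Complex.normSq_nonneg _))
      ⟨j, Finset.mem_univ j, mul_pos (mH_pos A j z) (Complex.normSq_pos.2 hj')⟩

lemma metric_diag {m : ℕ} (A : ℝ) (k : Fin (m + 3)) (z : Fin (m + 3) → ℂ) :
    hermForm (metric A z) (Pi.single k 1) = mH A k z := by
  unfold metric
  rw [hermForm_diagonal, Finset.sum_eq_single k]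
  · simp
  · intro j _ hj
    simp [hj]
  · intro h; exact absurd (Finset.mem_univ k) h

lemma prod_erase_mH {m : ℕ} (A : ℝ) (k : Fin (m + 3)) (z : Fin (m + 3) → ℂ) :
    ∏ l ∈ Finset.univ.erase k, mH A l z = Real.exp (dd A z) / mH A k z := by
  rw [← prod_mH A z, ← Finset.mul_prod_erase Finset.univ _ (Finset.mem_univ k)]
  field_simp [(mH_pos A k z).ne']

lemma prod_erase_mH_indep {m : ℕ} (A : ℝ) (k : Fin (m + 3)) (z : Fin (m + 3) → ℂ) (a : ℂ) :
    ∏ l ∈ Finset.univ.erase k, mH A l (z + Pi.single k a) =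
      ∏ l ∈ Finset.univ.erase k, mH A l z := by
  have e20 := two_ne_zero' m
  have e21 := two_ne_one' m
  by_cases h1 : k = 1
  · subst h1
    rw [prod_erase_mH, prod_erase_mH]
    have : ∀ w : Fin (m + 3) → ℂ, mH A 1 w = Real.exp (dd A w) := fun w => by simp [mH]
    rw [this, this, div_self (Real.exp_pos _).ne', div_self (Real.exp_pos _).ne']
  by_cases h2 : k = 2
  · subst h2
    rw [prod_erase_mH, prod_erase_mH]
    have h3 : ∀ w : Fin (m + 3) → ℂ, Real.exp (dd A w) / mH A 2 w = Real.exp (2 * A * sS (w 1)) := by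
      intro w
      have : mH A 2 w = Real.exp (-cc A w) := by simp [mH, e20, e21]
      rw [this, ← Real.exp_sub]
      congr 1
      unfold cc dd
      ring
    rw [h3, h3]
    simp [e21.symm]
  · refine Finset.prod_congr rfl fun l _ => ?_
    have g1 : (z + Pi.single k a : Fin (m + 3) → ℂ) 1 = z 1 := by simp [Ne.symm h1]
    have g2 : (z + Pi.single k a : Fin (m + 3) → ℂ) 2 = z 2 := by simp [Ne.symm h2]
    unfold mH cc dd
    rw [g1, g2]

lemma metric_isBalanced {m : ℕ} (A : ℝ) : IsBalanced (metric A : (Fin (m + 3) → ℂ) → _) := by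
  intro k z
  refine Finset.sum_eq_zero fun j _ => ?_
  have key : ∀ a : ℂ, (metric A (z + Pi.single j a)).adjugate k j = (metric A z).adjugate k j := by
    intro a
    unfold metric
    rw [Matrix.adjugate_diagonal, Matrix.adjugate_diagonal]
    by_cases hkj : k = j
    · subst hkj
      rw [Matrix.diagonal_apply_eq, Matrix.diagonal_apply_eq, ← Complex.ofReal_prod,
        ← Complex.ofReal_prod, prod_erase_mH_indep]
    · rw [Matrix.diagonal_apply_ne _ hkj, Matrix.diagonal_apply_ne _ hkj]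
  unfold wirtinger
  simp only [key, deriv_const, mul_zero, sub_zero]

lemma exp_le_one_add (x : ℝ) : Real.exp x ≤ 1 + x * Real.exp x := by
  have h1 : 1 - x ≤ Real.exp (-x) := Real.one_sub_le_exp_neg x
  have h2 := mul_le_mul_of_nonneg_right h1 (Real.exp_pos x).le
  rw [← Real.exp_add] at h2
  simp at h2
  linarith

lemma mH_bound {m : ℕ} {A : ℝ} (hA : 0 ≤ A) (k : Fin (m + 3)) :
    (∀ z, mH A k z ≤ 1) ∨
      ∃ i : Fin (m + 3), k.val < i.val ∧ ∀ z, mH A k z ≤ 1 + (2 * A * Real.exp (4 * A)) * sS (z i) := by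
  have bound : ∀ x s t : ℝ, 0 ≤ s → 0 ≤ t → s ≤ 2 → t ≤ 2 → x = A * s * t →
      Real.exp x ≤ 1 + (2 * A * Real.exp (4 * A)) * s := by
    intro x s t hs ht hs2 ht2 hx
    have hx0 : 0 ≤ x := by rw [hx]; positivity
    have hx1 : x ≤ 2 * A * s := by
      rw [hx]
      have : 0 ≤ A * s := by positivity
      nlinarith
    have hx2 : x ≤ 4 * A := by nlinarith
    have h1 := exp_le_one_add x
    have h2 : Real.exp x ≤ Real.exp (4 * A) := Real.exp_le_exp.2 hx2
    have h3 : x * Real.exp x ≤ 2 * A * s * Real.exp (4 * A) :=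
      mul_le_mul hx1 h2 (Real.exp_pos x).le (by positivity)
    linarith
  by_cases h0 : k = 0
  · right
    refine ⟨1, by rw [h0]; simp, fun z => ?_⟩
    have : mH A k z = Real.exp (cc A z) := by simp [mH, h0]
    rw [this]
    exact bound _ (sS (z 1)) (2 - sS (z 2)) (sS_nonneg _) (by linarith [sS_le (z 2)]) (sS_le _)
      (by linarith [sS_nonneg (z 2)]) rfl
  by_cases h1 : k = 1
  · right
    refine ⟨2, by rw [h1, val_two']; simp, fun z => ?_⟩
    have : mH A k z = Real.exp (dd A z) := by simp [mH, h1]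
    rw [this]
    exact bound _ (sS (z 2)) (sS (z 1)) (sS_nonneg _) (sS_nonneg _) (sS_le _) (sS_le _)
      (by unfold dd; ring)
  left
  intro z
  unfold mH
  rw [if_neg h0, if_neg h1]
  split_ifs
  · rw [Real.exp_le_one_iff]
    have := sS_nonneg (z 1)
    have := sS_le (z 2)
    unfold cc
    have : 0 ≤ A * sS (z 1) * (2 - sS (z 2)) := by
      apply mul_nonneg (by positivity)
      linarith
    linarith
  · exact le_rfl

lemma integral_sS_pos : 0 < ∫ z in sq, sS z := by
  rw [setIntegral_pos_iff_support_of_nonneg_ae (Eventually.of_forall fun z => sS_nonneg z)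
    (integrableOn_sq contDiff_sS.continuous)]
  have hU : IsOpen ({z : ℂ | 0 < z.re} ∩ {z : ℂ | z.re < 1 / 2} ∩ ({z : ℂ | 0 < z.im} ∩
      {z : ℂ | z.im < 1 / 2})) :=
    ((isOpen_lt continuous_const Complex.continuous_re).inter
      (isOpen_lt Complex.continuous_re continuous_const)).inter
      ((isOpen_lt continuous_const Complex.continuous_im).inter
        (isOpen_lt Complex.continuous_im continuous_const))
  refine lt_of_lt_of_le (hU.measure_pos volume ⟨⟨1 / 4, 1 / 4⟩, ?_⟩) (measure_mono ?_)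
  · norm_num
  · rintro z ⟨⟨h1, h2⟩, h3, h4⟩
    simp only [Set.mem_ofPred_eq] at h1 h2 h3 h4
    refine ⟨?_, ?_, ?_⟩
    · rw [Function.mem_support]
      have h5 : 0 < Real.sin (Real.pi * z.re) := by
        apply Real.sin_pos_of_pos_of_lt_pi
        · have := Real.pi_pos; positivity
        · have := Real.pi_pos; nlinarith
      have h6 : 0 < sA z := by unfold sA; positivity
      have := sB_nonneg z
      unfold sS
      linarith
    · rw [abs_of_pos h1]; linarith
    · rw [abs_of_pos h3]; linarith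

lemma le_volume {m : ℕ} {A : ℝ} :
    ((m + 3).factorial : ℝ) * (2 / Real.pi) ^ (m + 3) * (A * (∫ z in sq, sS z) ^ 2) ≤
      totalVolume (metric A : (Fin (m + 3) → ℂ) → _) := by
  unfold totalVolume
  refine mul_le_mul_of_nonneg_left ?_ (by have := Real.pi_pos; positivity)
  have hdet : ∀ z : Fin (m + 3) → ℂ, ((metric A z).det).re = Real.exp (dd A z) := by
    intro z
    unfold metric
    rw [Matrix.det_diagonal, ← Complex.ofReal_prod, Complex.ofReal_re, prod_mH]
  simp_rw [hdet]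
  have h21 := two_ne_one' m
  set f : Fin (m + 3) → ℂ → ℝ := fun j z => if j = 1 then sS z else if j = 2 then sS z else 1 with hf
  have hprod : ∀ g : Fin (m + 3) → ℝ, (∀ j, j ≠ 1 → j ≠ 2 → g j = 1) → ∏ j, g j = g 1 * g 2 := by
    intro g hg
    rw [← Finset.mul_prod_erase Finset.univ _ (Finset.mem_univ 1),
      ← Finset.mul_prod_erase (Finset.univ.erase 1) _
        (Finset.mem_erase.2 ⟨h21, Finset.mem_univ _⟩), Finset.prod_eq_one]
    · ring
    · intro j hj
      rw [Finset.mem_erase, Finset.mem_erase] at hj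
      exact hg j hj.2.1 hj.1
  have h1 : ∫ z in cell (m + 3), ∏ j, f j (z j) = (∫ z in sq, sS z) ^ 2 := by
    rw [integral_cell_prod, hprod]
    · simp only [hf, if_true, if_neg h21]
      ring
    · intro j h1 h2
      simp only [hf, if_neg h1, if_neg h2]
      rw [setIntegral_const, Measure.real, volume_sq]
      simp
  have h2 : ∀ z : Fin (m + 3) → ℂ, ∏ j, f j (z j) = sS (z 1) * sS (z 2) := by
    intro z
    rw [hprod (fun j => f j (z j))]
    · simp only [hf, if_true, if_neg h21]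
    · intro j h1 h2
      simp only [hf, if_neg h1, if_neg h2]
  simp_rw [h2] at h1
  rw [← h1, ← integral_const_mul]
  refine setIntegral_mono (integrableOn_cell ?_) (integrableOn_cell ?_) fun z => ?_
  · exact continuous_const.mul ((contDiff_sS.continuous.comp (continuous_apply 1)).mul
      (contDiff_sS.continuous.comp (continuous_apply 2)))
  · exact (contDiff_dd A).exp.continuous
  · simp only
    have h3 := Real.add_one_le_exp (dd A z)
    have h4 : A * (sS (z 1) * sS (z 2)) = dd A z := by unfold dd; ring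
    linarith

/-- Sanity check: constants are `ω`-psh for every Hermitian metric. -/
lemma isOmegaPsh_zero {n : ℕ} {h : (Fin n → ℂ) → Matrix (Fin n) (Fin n) ℂ}
    (hh : IsHermitianMetric h) : IsOmegaPsh h (fun _ => 0) where
  periodic := fun _ _ _ => rfl
  lt_top := fun _ => EReal.zero_lt_top
  usc := upperSemicontinuous_const
  ae_finite := Eventually.of_forall fun _ => EReal.zero_ne_bot
  integrable := by simp
  positive := by
    intro ξ χ _ _ hχ
    refine integral_nonneg fun z => ?_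
    have h1 : 0 ≤ hermForm (h z) ξ := by
      by_cases hξ : ξ = 0
      · subst hξ; simp [hermForm]
      · exact (hh.pos z ξ hξ).le
    simpa using mul_nonneg h1 (hχ z)

/-- **Main theorem.** In every complex dimension `n ≥ 3` and for every constant `c > 0` there are a
balanced Hermitian metric `ω` on the compact complex torus `X = ℂⁿ / (ℤ + iℤ)ⁿ` and a weight
`τ > 0` with `τ^n < c ∫_X ω^n` for which no `ω`-psh function `φ` on `X` satisfies
`φ ≤ τ log ‖z‖ + O(1)` near the point `0`. -/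
theorem result (n : ℕ) (hn : 3 ≤ n) (c : ℝ) (hc : 0 < c) :
    ∃ (h : (Fin n → ℂ) → Matrix (Fin n) (Fin n) ℂ) (τ : ℝ),
      IsHermitianMetric h ∧ IsBalanced h ∧ 0 < τ ∧ τ ^ n < c * totalVolume h ∧
      ¬ ∃ φ : (Fin n → ℂ) → EReal, IsOmegaPsh h φ ∧ HasLogPole φ τ := by
  obtain ⟨m, rfl⟩ : ∃ m, n = m + 3 := ⟨n - 3, by omega⟩
  set a : ℝ := c * (((m + 3).factorial : ℝ) * (2 / Real.pi) ^ (m + 3) * (∫ z in sq, sS z) ^ 2)
    with ha
  have ha0 : 0 < a := by
    have h1 := integral_sS_pos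
    have h2 := Real.pi_pos
    have h3 : (0 : ℝ) < (m + 3).factorial := by exact_mod_cast Nat.factorial_pos _
    positivity
  have hτ0 : 0 < tauN (m + 3) := by unfold tauN; positivity
  set A : ℝ := (tauN (m + 3) ^ (m + 3) + 1) / a with hA
  have hA0 : 0 ≤ A := by positivity
  refine ⟨metric A, tauN (m + 3), metric_isHermitianMetric A, metric_isBalanced A, hτ0, ?_, ?_⟩
  · refine lt_of_lt_of_le ?_ (mul_le_mul_of_nonneg_left le_volume hc.le)
    have h1 : c * (((m + 3).factorial : ℝ) * (2 / Real.pi) ^ (m + 3) *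
        (A * (∫ z in sq, sS z) ^ 2)) = A * a := by rw [ha]; ring
    rw [h1, hA, div_mul_cancel₀ _ ha0.ne']
    linarith
  · rintro ⟨φ, hφ, hpole⟩
    exact core (by omega) (metric A) (mH A) (fun k => (contDiff_mH A k).continuous)
      (metric_diag A) (2 * A * Real.exp (4 * A)) (by positivity) (mH_bound hA0) φ hφ hpole

end Pool.Agent.Results.MP_629fd3_an.BalancedTorus
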